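import Pool.Agent.H.MP_a3803f_an.B

set_option autoImplicit false

open Set Real MeasureTheory Pool.Agent.H.MP_a3803f_an

namespace Pool.Agent.H.MP_00e59b_an

variable {n : ℕ}

noncomputable def W (a c : Fin n) : V n → V n :=
  md a c (fun x => |x a| - |x c|) (fun x => |x a + x c| - |x a - x c|)

lemma W_lip {a c : Fin n} (h : a ≠ c) : ∃ K, LipschitzWith K (W a c) := by
  refine ⟨⟨(n + 1) * 4, by positivity⟩, LipschitzWith.of_dist_le_mul fun x y => ?_⟩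
  change _ ≤ ((n : ℝ) + 1) * 4 * _
  rw [mul_assoc]
  refine dist_le (by positivity) fun j => ?_
  have h1 := abs_le.1 (le_dist x y a)
  have h2 := abs_le.1 (le_dist x y c)
  have h0 := dist_nonneg (x := x) (y := y)
  have k : ∀ s t d : ℝ, -d ≤ s - t → s - t ≤ d → -d ≤ |s| - |t| ∧ |s| - |t| ≤ d := fun s t d p q =>
    abs_le.1 ((abs_abs_sub_abs_le_abs_sub s t).trans (abs_le.2 ⟨p, q⟩))
  by_cases ha : j = a
  · rw [ha, W, md_a h, md_a h, abs_le]
    have a1 := k _ _ _ h1.1 h1.2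
    have a2 := k _ _ _ h2.1 h2.2
    constructor <;> linarith [a1.1, a1.2, a2.1, a2.2]
  by_cases hc : j = c
  · rw [hc, W, md_b h, md_b h, abs_le]
    have a1 := k (x a + x c) (y a + y c) (2 * dist x y) (by linarith) (by linarith)
    have a2 := k (x a - x c) (y a - y c) (2 * dist x y) (by linarith) (by linarith)
    constructor <;> linarith [a1.1, a1.2, a2.1, a2.2]
  rw [W, md_o ha hc, md_o ha hc]
  linarith [le_dist x y j]

lemma abs_der {u : V n →L[ℝ] ℝ} {x : V n} (h : u x ≠ 0) :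
    ∃ s : ℝ, (s = 1 ∧ 0 < u x ∨ s = -1 ∧ u x < 0) ∧ HasFDerivAt (fun x => |u x|) (s • u) x := by
  rcases lt_or_gt_of_ne h with h | h
  · exact ⟨-1, Or.inr ⟨rfl, h⟩, by
      have h' : (-1 : ℝ) • u = -u := by ext; simp
      rw [h']
      exact u.hasFDerivAt.abs_of_neg h⟩
  · exact ⟨1, Or.inl ⟨rfl, h⟩, by simpa using u.hasFDerivAt.abs_of_pos h⟩

lemma W_deriv {a c : Fin n} (h : a ≠ c) {x : V n} (h1 : pr a x ≠ 0) (h2 : pr c x ≠ 0)
    (h3 : (pr a + pr c) x ≠ 0) (h4 : (pr a - pr c) x ≠ 0) :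
    ∃ D : V n →L[ℝ] V n, HasFDerivAt (W a c) D x ∧ ‖D‖ ≤ 9 ∧ D.det = 2 := by
  obtain ⟨s1, a1, b1⟩ := abs_der h1
  obtain ⟨s2, a2, b2⟩ := abs_der h2
  obtain ⟨s3, a3, b3⟩ := abs_der h3
  obtain ⟨s4, a4, b4⟩ := abs_der h4
  refine ⟨_, md_deriv a c (b1.sub b2) (b3.sub b4), (mdD_norm _ _ _ _).trans ?_, ?_⟩
  · have k : ∀ (s : ℝ) (p q : Prop) (u : V n →L[ℝ] ℝ), (s = 1 ∧ p ∨ s = -1 ∧ q) → ‖s • u‖ = ‖u‖ := by
      rintro s p q u (⟨rfl, -⟩ | ⟨rfl, -⟩) <;> rw [norm_smul] <;> simp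
    have c1 := norm_sub_le (s1 • pr a) (s2 • pr c)
    have c2 := norm_sub_le (s3 • (pr a + pr c)) (s4 • (pr a - pr c))
    rw [k _ _ _ _ a1, k _ _ _ _ a2] at c1
    rw [k _ _ _ _ a3, k _ _ _ _ a4] at c2
    linarith [norm_add_le (pr a) (pr c), norm_sub_le (pr a) (pr c), pr_norm a, pr_norm c]
  · rw [mdD_det h]
    simp only [add_apply, sub_apply] at a3 a4
    simp [h, h.symm]
    rcases a1 with ⟨rfl, a1⟩ | ⟨rfl, a1⟩ <;> rcases a2 with ⟨rfl, a2⟩ | ⟨rfl, a2⟩ <;>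
      rcases a3 with ⟨rfl, a3⟩ | ⟨rfl, a3⟩ <;> rcases a4 with ⟨rfl, a4⟩ | ⟨rfl, a4⟩ <;>
      linarith

lemma ae_ne (u : V n →L[ℝ] ℝ) (a : Fin n) (h : u (e a) ≠ 0) : ∀ᵐ x, u x ≠ 0 := by
  have := Measure.addHaar_submodule volume (LinearMap.ker (u : V n →ₗ[ℝ] ℝ)) (fun h' => h (by
    have : e a ∈ LinearMap.ker (u : V n →ₗ[ℝ] ℝ) := h' ▸ Submodule.mem_top
    exact this))
  rw [ae_iff]
  convert this using 2
  ext x
  simp

theorem main (n : ℕ) (hn : 3 ≤ n) : ∃ (Ω : Set (V n)) (f : V n → V n) (K : ℝ),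
    IsOpen Ω ∧ IsConnected Ω ∧ LocallyLipschitzOn Ω f ∧ 1 ≤ K ∧
    (∀ᵐ x, x ∈ Ω → DifferentiableAt ℝ f x ∧ ‖fderiv ℝ f x‖ ^ n ≤ K * (fderiv ℝ f x).det) ∧
    ∀ d ≤ n - 2, ¬ Nag (f '' {x ∈ Ω | ¬ IsLocalHomeomorphOn f {x}}) d := by
  obtain ⟨k, rfl⟩ : ∃ k, n = k + 1 + 1 := ⟨n - 2, by omega⟩
  obtain ⟨a, ha⟩ : ∃ a : Fin (k + 1 + 1), a = 1 := ⟨_, rfl⟩
  obtain ⟨b, hb⟩ : ∃ b : Fin (k + 1 + 1), b = Fin.last _ := ⟨_, rfl⟩
  have hab : a ≠ b := by
    intro h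
    have := congrArg Fin.val h
    simp [ha, hb] at this
    omega
  have hac : a ≠ 0 := by simp [ha]
  have hbc : b ≠ 0 := by simp [hb]
  have hW : ∀ x ∈ Om a b ∩ {x | |x 0| < π}, W a 0 x ∈ Om a b := fun x hx =>
    ⟨by
      rw [W, md_a hac, abs_lt]
      have h1 : |x 0| < π := hx.2
      constructor <;> linarith [hx.1.1, abs_nonneg (x a), abs_nonneg (x 0)],
    by rw [W, md_o hab.symm hbc]; exact hx.1.2⟩
  obtain ⟨L, hL⟩ := W_lip hac
  refine ⟨Om a b ∩ {x | |x 0| < π}, F a b ∘ W a 0, (17 * 9) ^ (k + 1 + 1),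
    (Om_open _ _).inter (opn1 _), ((Om_convex a b).inter (cvx1 0)).isConnected
      ⟨md a b (fun _ => 0) (fun _ => 2) 0, ⟨by simp [md_a hab, pi_pos], by simp [md_b hab]⟩, by
        simp [md_o hac.symm hbc.symm, pi_pos]⟩, fun x hx => ?_, one_le_pow₀ (by norm_num), ?_,
    fun d hd hN => ?_⟩
  · obtain ⟨K, t, ht, h⟩ := (F_smooth a b (hW x hx)).exists_lipschitzOnWith
    exact ⟨K * L, W a 0 ⁻¹' t, mem_nhdsWithin_of_mem_nhds (hL.continuous.continuousAt ht),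
      h.comp hL.lipschitzOnWith fun _ h => h⟩
  · filter_upwards [ae_ne (pr a) a (by simp), ae_ne (pr 0) 0 (by simp),
      ae_ne (pr a + pr 0) a (by simp [hac.symm]), ae_ne (pr a - pr 0) a (by simp [hac.symm])]
      with x h1 h2 h3 h4 hx
    obtain ⟨D, d1, d2, d3⟩ := W_deriv hac h1 h2 h3 h4
    have d4 := ((F_smooth a b (hW x hx)).differentiableAt one_ne_zero).hasFDerivAt.comp x d1
    obtain ⟨d5, d6⟩ := F_deriv hab (hW x hx)
    refine ⟨d4.differentiableAt, ?_⟩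
    rw [d4.fderiv]
    have d7 : ((fderiv ℝ (F a b) (W a 0 x)).comp D).det =
        (fderiv ℝ (F a b) (W a 0 x)).det * D.det := LinearMap.det_comp _ _
    have d8 : ‖(fderiv ℝ (F a b) (W a 0 x)).comp D‖ ≤ 17 * 9 :=
      (ContinuousLinearMap.opNorm_comp_le _ _).trans (by gcongr)
    refine (pow_le_pow_left₀ (norm_nonneg _) d8 _).trans
      (le_mul_of_one_le_right (by positivity) ?_)
    rw [d7, d3]
    linarith
  · let G : (Fin (k + 1) → ℤ) → V (k + 1 + 1) := fun x =>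
      WithLp.toLp 2 (Fin.cons 0 fun j => (x j : ℝ))
    refine lower (k := k) G (((k + 1 + 1 : ℕ) + 1) * 14) (((k + 1 + 1 : ℕ) + 1) * 1)
      (fun x y j => le_dist (G x) (G y) j.succ) (fun x y h => dist_le zero_le_one fun j => ?_)
      (fun x => ?_) (Nag.mono hN (by omega))
    · refine Fin.cases (by simp [G]) (fun j => ?_) j
      simp only [G, Fin.cons_succ]
      exact_mod_cast h j
    obtain ⟨y, h1, h2, h3, h4⟩ := F_net hab (G x)
    have h5 : y 0 = 0 := h3 0 hac.symm hbc.symm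
    have h6 : ∀ t : ℝ, W a 0 (y + t • e a) = y + |t| • e a := fun t => by
      ext j
      by_cases ha : j = a
      · rw [ha, W, md_a hac]; simp [h1, h5, hac.symm]
      by_cases hc : j = 0
      · rw [hc, W, md_b hac]; simp [h1, h5, hac.symm]
      rw [W, md_o ha hc]
      simp [ha]
    refine ⟨_, ⟨y, ⟨⟨⟨by simp [h1, pi_pos], h2⟩, by simp [h5, pi_pos]⟩, fun h => ?_⟩, ?_⟩, h4⟩
    · obtain ⟨E, e1, e2⟩ := h y rfl
      have c : ∀ s : ℝ, ∀ᶠ t : ℝ in nhds 0, y + (s * t) • e a ∈ E.source := fun s =>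
        ContinuousAt.preimage_mem_nhds (f := fun t : ℝ => y + (s * t) • e a)
          (by fun_prop) (by simpa using E.open_source.mem_nhds e1)
      obtain ⟨t, ⟨t1, t2⟩, t3⟩ := ((((c 1).and (c (-1))).filter_mono
        (nhdsWithin_le_nhds (s := Ioi 0))).and self_mem_nhdsWithin).exists
      have := E.injOn t1 t2 (by
        rw [← e2, Function.comp_apply, Function.comp_apply, h6, h6]
        simp)
      have := congrArg (fun z : V _ => z a) this
      simp at this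
      have t4 : 0 < t := t3
      linarith
    · have := h6 0
      simp only [zero_smul, add_zero, abs_zero] at this
      rw [Function.comp_apply, this]

end Pool.Agent.H.MP_00e59b_an
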